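import Mathlib
import Pool.Graph.R_seed8.TH722.FI.Fin
import Pool.Agent.KS6_32.FI1.Fin1

/-!
# The f-invariant is invariant under L^1 orbit equivalence

For essentially free, finitely generated pmp actions of a free group of finite rank, the
f-invariant is an invariant of `L^p` orbit equivalence for EVERY `p` with `1 ≤ p ≤ ∞`
(the theorem of the library needs `p ≥ 2`).

The comparison of the two Cayley trees on an orbit goes through hybrid trees, in which the blocks
of the second tree are joined by block edges. The new ingredient is a first moment bound for the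
lengths of the block edges (the library has a second moment bound): for every `n` the block edges
of length at least `n` are not more numerous than the non-chosen edges of length at least `n` of
the second tree. This is a rank inequality for equivariant families of matrices over the orbits
(`KS6_32.FI1.Rank`, `KS6_32.FI1.Count`).
-/

set_option autoImplicit false

open MeasureTheory Filter Set
open scoped ENNReal Topology

namespace Pool.Agent.Results.MP_572a3e_an.LOneInvariance

/-- Shannon entropy `H_μ(φ)` of an observable `φ : X → A`. -/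
noncomputable def shannon {X A : Type*} [MeasurableSpace X] (μ : Measure X) (φ : X → A) : ℝ :=
  ∑' a, Real.negMulLog (μ.real {x | φ x = a})

/-- The observable `φ^{T,K}(x) = (φ(T^{k⁻¹} x))_{k ∈ K}`. -/
def orbitObs {r : ℕ} {X A : Type*} [MulAction (FreeGroup (Fin r)) X]
    (K : Set (FreeGroup (Fin r))) (φ : X → A) (x : X) : K → A :=
  fun k => φ ((k : FreeGroup (Fin r))⁻¹ • x)

/-- Bowen's functional `F_μ(T,φ) = (1-2r) H_μ(φ) + ∑_i H_μ(φ^{T,{e,s_i}})`. -/
noncomputable def bowenF (r : ℕ) {X A : Type*} [MeasurableSpace X]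
    [MulAction (FreeGroup (Fin r)) X] (μ : Measure X) (φ : X → A) : ℝ :=
  (1 - 2 * (r : ℝ)) * shannon μ φ +
    ∑ i : Fin r, shannon μ (orbitObs ({1, FreeGroup.of i} : Set (FreeGroup (Fin r))) φ)

/-- `φ` is an observable with countably many values, finite Shannon entropy, and it is
generating: every measurable set agrees, up to a null set, with a set of the smallest invariant
sigma-algebra making `φ` measurable. -/
structure IsGenerator (r : ℕ) {X A : Type*} [MeasurableSpace X] [MulAction (FreeGroup (Fin r)) X]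
    (μ : Measure X) (φ : X → A) : Prop where
  meas : ∀ a, MeasurableSet {x | φ x = a}
  finEnt : Summable fun a => Real.negMulLog (μ.real {x | φ x = a})
  gen : ∀ B : Set X, MeasurableSet B → ∃ B' : Set X,
    MeasurableSet[⨆ g : FreeGroup (Fin r), MeasurableSpace.comap (fun x => φ (g • x)) ⊤] B' ∧
      B =ᵐ[μ] B'

/-- `L` is the f-invariant of the action of the free group of rank `r` on `(X, μ)`: some
generator exists, and for every generator `φ` the numbers `F_μ(T, φ^{T,B(ρ)})` tend to `L`. -/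
def HasFInvariant (r : ℕ) {X : Type*} [MeasurableSpace X] [MulAction (FreeGroup (Fin r)) X]
    (μ : Measure X) (L : EReal) : Prop :=
  (∃ (A : Type) (_ : Countable A) (φ : X → A), IsGenerator r μ φ) ∧
  ∀ (A : Type) (_ : Countable A) (φ : X → A), IsGenerator r μ φ →
    Tendsto (fun ρ : ℕ =>
      ((bowenF r μ (orbitObs {k : FreeGroup (Fin r) | k.norm ≤ ρ} φ) : ℝ) : EReal)) atTop (𝓝 L)

/-- An essentially free probability measure preserving action. -/
structure FreePmp (r : ℕ) {X : Type*} [MeasurableSpace X] [MulAction (FreeGroup (Fin r)) X]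
    (μ : Measure X) : Prop where
  pmp : ∀ g : FreeGroup (Fin r), MeasurePreserving (fun x : X => g • x) μ μ
  free : ∀ᵐ x ∂μ, ∀ g : FreeGroup (Fin r), g • x = x → g = 1

/-- `L^p` orbit equivalence: `Φ` (with a.e. inverse `Ψ`) is an isomorphism of measure spaces
carrying orbits onto orbits, with cocycles `α`, `β` whose word lengths are in `L^p`. -/
def LpOrbitEquivalent (r : ℕ) (p : ℝ≥0∞) {X Y : Type*} [MeasurableSpace X] [MeasurableSpace Y]
    [MulAction (FreeGroup (Fin r)) X] [MulAction (FreeGroup (Fin r)) Y]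
    (μ : Measure X) (ν : Measure Y) : Prop :=
  ∃ (Φ : X → Y) (Ψ : Y → X) (α : FreeGroup (Fin r) → X → FreeGroup (Fin r))
    (β : FreeGroup (Fin r) → Y → FreeGroup (Fin r)),
    MeasurePreserving Φ μ ν ∧ MeasurePreserving Ψ ν μ ∧
    (∀ᵐ x ∂μ, Ψ (Φ x) = x) ∧ (∀ᵐ y ∂ν, Φ (Ψ y) = y) ∧
    (∀ᵐ x ∂μ, Φ '' MulAction.orbit (FreeGroup (Fin r)) x =
      MulAction.orbit (FreeGroup (Fin r)) (Φ x)) ∧
    (∀ᵐ x ∂μ, ∀ g, α g x • Φ x = Φ (g • x)) ∧
    (∀ᵐ y ∂ν, ∀ g, β g y • Ψ y = Ψ (g • y)) ∧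
    (∀ g, MemLp (fun x => ((α g x).norm : ℝ)) p μ) ∧
    (∀ g, MemLp (fun y => ((β g y).norm : ℝ)) p ν)

section bridge

open Pool.Agent.TH722.FI Pool.Agent.TH722.FI.Jobs

variable {r : ℕ} {X A : Type*} [MeasurableSpace X] [MulAction (FreeGroup (Fin r)) X]
  {μ : Measure X} [IsProbabilityMeasure μ]

theorem shannon_eq {φ : X → A} (h : IsLab μ φ) : shannon μ φ = ent μ φ :=
  (lab_shannon h.meas h.cnt).2.symm

theorem isLab_of_gen [Countable A] {φ : X → A} (h : IsGenerator r μ φ) : IsLab μ φ :=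
  (lab_shannon h.meas (Set.to_countable _)).1.mpr h.finEnt

theorem bowenF_eq (hX : ∀ g : FreeGroup (Fin r), MeasurePreserving (fun x : X => g • x) μ μ)
    {φ : X → A} (h : IsLab μ φ) :
    bowenF r μ φ = BF μ (fun (g : FreeGroup (Fin r)) (x : X) => g • x) φ := by
  unfold bowenF BF
  rw [shannon_eq h]
  congr 1
  refine Finset.sum_congr rfl fun i _ => ?_
  have h2 := (lab_pair h (lab_comp (hX (FreeGroup.of i)⁻¹) h).1).1
  have f1 : Finer (fun x => (φ x, φ ((FreeGroup.of i : FreeGroup (Fin r))⁻¹ • x)))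
      (orbitObs ({1, FreeGroup.of i} : Set (FreeGroup (Fin r))) φ) := by
    intro x y hxy
    simp only [Prod.mk.injEq] at hxy
    funext k
    obtain ⟨k, hk⟩ := k
    simp only [orbitObs]
    rcases hk with rfl | hk
    · simpa using hxy.1
    · rw [Set.mem_singleton_iff] at hk
      subst hk
      exact hxy.2
  have f2 : Finer (orbitObs ({1, FreeGroup.of i} : Set (FreeGroup (Fin r))) φ)
      (fun x => (φ x, φ ((FreeGroup.of i : FreeGroup (Fin r))⁻¹ • x))) := by
    intro x y hxy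
    have e1 := congrFun hxy ⟨1, by simp⟩
    have e2 := congrFun hxy ⟨FreeGroup.of i, by simp⟩
    simp only [orbitObs, inv_one, one_smul] at e1 e2
    simp only [Prod.mk.injEq]
    exact ⟨e1, e2⟩
  rw [shannon_eq (lab_of_finer h2 f1).1]
  exact ent_congr f2 f1

theorem bowenF_ball (hX : ∀ g : FreeGroup (Fin r), MeasurePreserving (fun x : X => g • x) μ μ)
    {φ : X → A} (h : IsLab μ φ) (ρ : ℕ) :
    bowenF r μ (orbitObs {k : FreeGroup (Fin r) | k.norm ≤ ρ} φ) =
      BF μ (fun (g : FreeGroup (Fin r)) (x : X) => g • x)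
        (ballLab (fun (g : FreeGroup (Fin r)) (x : X) => g • x) φ ρ) := by
  have hl : IsLab μ (orbitObs {k : FreeGroup (Fin r) | k.norm ≤ ρ} φ) := by
    have : Finite {k : FreeGroup (Fin r) // k.norm ≤ ρ} := (norm_finite r ρ).to_subtype
    have := Fintype.ofFinite {k : FreeGroup (Fin r) // k.norm ≤ ρ}
    exact lab_pi (fun (k : {k : FreeGroup (Fin r) // k.norm ≤ ρ}) x => φ (k.1⁻¹ • x))
      (fun k => (lab_comp (hX k.1⁻¹) h).1)
  rw [bowenF_eq hX hl]
  rfl

end bridge

/-- The f-invariant is invariant under `L^p` orbit equivalence, for every `1 ≤ p ≤ ∞`. -/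
theorem result (r : ℕ) (p : ℝ≥0∞) (hp : 1 ≤ p) {X Y : Type} [MeasurableSpace X]
    [StandardBorelSpace X] [MeasurableSpace Y] [StandardBorelSpace Y]
    [MulAction (FreeGroup (Fin r)) X] [MulAction (FreeGroup (Fin r)) Y]
    (μ : Measure X) (ν : Measure Y) [IsProbabilityMeasure μ] [IsProbabilityMeasure ν]
    (hX : FreePmp r μ) (hY : FreePmp r ν)
    (hgX : ∃ (A : Type) (_ : Countable A) (φ : X → A), IsGenerator r μ φ)
    (hgY : ∃ (A : Type) (_ : Countable A) (φ : Y → A), IsGenerator r ν φ)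
    (hOE : LpOrbitEquivalent r p μ ν) :
    ∃ L : EReal, L ≠ ⊤ ∧ HasFInvariant r μ L ∧ HasFInvariant r ν L := by
  obtain ⟨Φ, Ψ, α, β, h1, h2, h3, h4, h5, h6, h7, h8, h9⟩ := hOE
  have key : ∀ (A : Type) (_ : Countable A) (φ : X → A) (B : Type) (_ : Countable B) (φ' : Y → B),
      IsGenerator r μ φ → IsGenerator r ν φ' → ∃ L : EReal, L ≠ ⊤ ∧
      Tendsto (fun ρ : ℕ => ((bowenF r μ (orbitObs {k : FreeGroup (Fin r) | k.norm ≤ ρ} φ) : ℝ) :
        EReal)) atTop (𝓝 L) ∧
      Tendsto (fun ρ : ℕ => ((bowenF r ν (orbitObs {k : FreeGroup (Fin r) | k.norm ≤ ρ} φ') : ℝ) :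
        EReal)) atTop (𝓝 L) := by
    intro A _ φ B _ φ' hφ hφ'
    have l1 := isLab_of_gen hφ
    have l2 := isLab_of_gen hφ'
    obtain ⟨L, hL, t1, t2⟩ := Pool.Agent.KS6_32.FI1.main_working1 μ ν hX.pmp hY.pmp hX.free hY.free
      Φ Ψ h1 h2 h3 h4 h5 α h6 β h7 (fun g => (h8 g).mono_exponent hp)
      (fun g => (h9 g).mono_exponent hp) l1 l2 hφ.gen hφ'.gen
    refine ⟨L, hL, ?_, ?_⟩
    · simp_rw [bowenF_ball hX.pmp l1]
      exact t1
    · simp_rw [bowenF_ball hY.pmp l2]
      exact t2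
  obtain ⟨A0, cA0, φ0, g0⟩ := hgX
  obtain ⟨B0, cB0, φ0', g0'⟩ := hgY
  obtain ⟨L, hL, t1, t2⟩ := key A0 cA0 φ0 B0 cB0 φ0' g0 g0'
  refine ⟨L, hL, ⟨⟨A0, cA0, φ0, g0⟩, ?_⟩, ⟨⟨B0, cB0, φ0', g0'⟩, ?_⟩⟩
  · intro A cA φ hφ
    obtain ⟨L', -, t1', t2'⟩ := key A cA φ B0 cB0 φ0' hφ g0'
    rw [tendsto_nhds_unique t2 t2']
    exact t1'
  · intro B cB φ' hφ'
    obtain ⟨L', -, t1', t2'⟩ := key A0 cA0 φ0 B cB φ' g0 hφ'
    rw [tendsto_nhds_unique t1 t1']
    exact t2'

end Pool.Agent.Results.MP_572a3e_an.LOneInvariance
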